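import Pool.Agent.J4H50.YK.Stm

set_option autoImplicit false

/-! # Project YK: the arcs with the leading coefficient `G₀(z₀) ≠ 0` (helper82) -/

namespace Pool.Agent.J4H82.YK

open MvPolynomial
open Pool.Agent.W428.MOT
open Pool.Agent.TH192.MT (ar)
open Pool.Agent.J4H50.YJ
open Pool.Agent.J4H50.YK

section

variable {K : Type} [Field K] {σ : Type} [Fintype σ]

/-- the smallest integer `c` with `m w_i ≤ D c` -/
def cl (w : σ → ℕ) (D m : ℕ) (i : σ) : ℕ := m * w i / D + if D ∣ m * w i then 0 else 1

theorem cl_lt (w : σ → ℕ) {D : ℕ} (hD : 0 < D) (m : ℕ) (i : σ) (j : ℕ) :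
    D * 1 * j < m * w i ↔ j < cl w D m i := by
  rw [mul_one, cl]
  have h := Nat.div_add_mod (m * w i) D
  have hr := Nat.mod_lt (m * w i) hD
  set q := m * w i / D
  set r := m * w i % D
  split_ifs with hd
  · have h0 : r = 0 := Nat.mod_eq_zero_of_dvd hd
    rw [← h, h0, add_zero, add_zero]
    exact Nat.mul_lt_mul_left hD
  · have h0 : 0 < r := Nat.pos_of_ne_zero fun e => hd (Nat.dvd_of_mod_eq_zero e)
    rw [← h]
    constructor
    · intro hj
      by_contra hcon
      push Not at hcon
      have := Nat.mul_le_mul_left D hcon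
      rw [mul_add, mul_one] at this
      omega
    · intro hj
      have := Nat.mul_le_mul_left D (Nat.lt_succ_iff.1 hj)
      omega

theorem cl_ge (w : σ → ℕ) {D : ℕ} (hD : 0 < D) (m : ℕ) (i : σ) : m * w i ≤ D * cl w D m i := by
  have := (cl_lt w hD m i (cl w D m i)).not.2 (lt_irrefl _)
  rw [mul_one] at this
  omega

theorem cl_eq (w : σ → ℕ) {D : ℕ} (hD : 0 < D) (m : ℕ) (i : σ) : m * w i = D * cl w D m i ↔ D ∣ m * w i := by
  constructor
  · intro h
    exact ⟨_, h⟩
  · intro h
    rw [cl, if_pos h, add_zero, Nat.mul_div_cancel' h]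

/-- the weighted degree -/
theorem wt (w : σ → ℕ) (a : σ →₀ ℕ) : Finsupp.weight w a = ∑ i, a i * w i := by
  rw [Finsupp.weight_apply, Finsupp.sum_fintype _ _ (by simp)]
  rfl

theorem s_ge (w : σ → ℕ) {D : ℕ} (hD : 0 < D) (m : ℕ) (a : σ →₀ ℕ) :
    m * Finsupp.weight w a ≤ D * ∑ i, cl w D m i * a i := by
  rw [wt, Finset.mul_sum, Finset.mul_sum]
  refine Finset.sum_le_sum fun i _ => ?_
  calc m * (a i * w i) = (m * w i) * a i := by ring
    _ ≤ (D * cl w D m i) * a i := Nat.mul_le_mul_right _ (cl_ge w hD m i)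
    _ = D * (cl w D m i * a i) := by ring

theorem s_eq (w : σ → ℕ) {D : ℕ} (hD : 0 < D) (m : ℕ) (a : σ →₀ ℕ)
    (h : m * Finsupp.weight w a = D * ∑ i, cl w D m i * a i) (i : σ) (hi : ¬ D ∣ m * w i) : a i = 0 := by
  by_contra hcon
  have h1 : m * Finsupp.weight w a < D * ∑ i, cl w D m i * a i := by
    rw [wt, Finset.mul_sum, Finset.mul_sum]
    refine Finset.sum_lt_sum (fun i _ => ?_) ⟨i, Finset.mem_univ _, ?_⟩
    · calc m * (a i * w i) = (m * w i) * a i := by ring
        _ ≤ (D * cl w D m i) * a i := Nat.mul_le_mul_right _ (cl_ge w hD m i)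
        _ = D * (cl w D m i * a i) := by ring
    · calc m * (a i * w i) = (m * w i) * a i := by ring
        _ < (D * cl w D m i) * a i := by
          refine Nat.mul_lt_mul_of_pos_right ?_ (Nat.pos_of_ne_zero hcon)
          exact lt_of_le_of_ne (cl_ge w hD m i) fun e => hi ((cl_eq w hD m i).1 e)
        _ = D * (cl w D m i * a i) := by ring
  omega

/-- the value of a polynomial at `t ^ c y` -/
theorem ae (G : MvPolynomial σ K) (c : σ → ℕ) (x y : Ac K σ) (h : ∀ i, x i = PowerSeries.X ^ c i * y i) (j : ℕ) :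
    PowerSeries.coeff j (aeval x G) = ∑ a ∈ G.support, algebraMap K (AlgebraicClosure K) (coeff a G) *
      if ∑ i, c i * a i ≤ j then PowerSeries.coeff (j - ∑ i, c i * a i) (∏ i, y i ^ a i) else 0 := by
  rw [aeval_def, eval₂_eq', map_sum]
  refine Finset.sum_congr rfl fun a _ => ?_
  rw [PowerSeries.algebraMap_apply, PowerSeries.coeff_C_mul]
  congr 1
  have h1 : ∏ i, x i ^ a i = PowerSeries.X ^ (∑ i, c i * a i) * ∏ i, y i ^ a i := by
    rw [← Finset.prod_pow_eq_pow_sum, ← Finset.prod_mul_distrib]
    refine Finset.prod_congr rfl fun i _ => ?_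
    rw [h, mul_pow, ← pow_mul]
  rw [h1, PowerSeries.coeff_X_pow_mul']

/-- the point `z₀` -/
noncomputable def z0 (I : Finset σ) (y : Pt K σ) : Pt K σ := by
  classical exact fun i => if i ∈ I then y i else 0

theorem z0_pf (I : Finset σ) (G : MvPolynomial σ K) : IsPF fun y : Pt K σ => aeval (z0 I y) G := by
  refine (IsPF.poly G).comp (fun y => z0 I y) fun i => ?_
  unfold z0
  by_cases h : i ∈ I
  · simp only [h, if_true]
    exact IsPF.coord _
  · simp only [h, if_false]
    exact IsPF.zero

/-- the leading coefficient -/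
theorem lead (G : MvPolynomial σ K) (w : σ → ℕ) {D : ℕ} (hD : 0 < D)
    (hG : ∀ a, coeff a G ≠ 0 → D ≤ Finsupp.weight w a) {m : ℕ} (hm : 1 ≤ m) (x y : Ac K σ)
    (h : ∀ i, x i = PowerSeries.X ^ cl w D m i * y i) :
    (∀ j < m, PowerSeries.coeff j (aeval x G) = 0) ∧
    PowerSeries.coeff m (aeval x G) =
      aeval (z0 (Finset.univ.filter fun i => D ∣ m * w i) fun i => PowerSeries.coeff 0 (y i))
        (weightedHomogeneousComponent w D G) := by
  classical
  have hs : ∀ a ∈ G.support, m ≤ ∑ i, cl w D m i * a i := by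
    intro a ha
    have h1 := hG a (mem_support_iff.1 ha)
    have h2 := s_ge w hD m a
    have h3 : m * D ≤ D * ∑ i, cl w D m i * a i := (Nat.mul_le_mul_left m h1).trans h2
    rw [mul_comm m D] at h3
    exact Nat.le_of_mul_le_mul_left h3 hD
  constructor
  · intro j hj
    rw [ae G _ x y h]
    refine Finset.sum_eq_zero fun a ha => ?_
    rw [if_neg (by have := hs a ha; omega), mul_zero]
  · rw [ae G _ x y h, weightedHomogeneousComponent_apply, map_sum, Finset.sum_filter]
    refine Finset.sum_congr rfl fun a ha => ?_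
    have h1 := hs a ha
    by_cases he : ∑ i, cl w D m i * a i ≤ m
    · have he' : ∑ i, cl w D m i * a i = m := le_antisymm he h1
      have h2 := s_ge w hD m a
      have h3 := hG a (mem_support_iff.1 ha)
      have h4 : Finsupp.weight w a = D := by
        rw [he', mul_comm D m] at h2
        exact le_antisymm (Nat.le_of_mul_le_mul_left h2 hm) h3
      have h5 : ∀ i, ¬ D ∣ m * w i → a i = 0 := by
        intro i hi
        refine s_eq w hD m a ?_ i hi
        rw [h4, he', mul_comm]
      rw [if_pos he, if_pos h4, he', Nat.sub_self, PowerSeries.coeff_zero_eq_constantCoeff_apply, map_prod,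
        aeval_monomial, Finsupp.prod_fintype _ _ (by simp)]
      congr 1
      refine Finset.prod_congr rfl fun i _ => ?_
      rw [map_pow, z0]
      by_cases hi : D ∣ m * w i
      · rw [if_pos (by simp [hi]), PowerSeries.coeff_zero_eq_constantCoeff_apply]
      · rw [h5 i hi, pow_zero, pow_zero]
    · rw [if_neg he, mul_zero]
      split_ifs with h4
      · -- then a coordinate outside of `I` occurs
        have h6 : ∃ i, ¬ D ∣ m * w i ∧ a i ≠ 0 := by
          by_contra hcon
          push Not at hcon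
          apply he
          have h7 : D * ∑ i, cl w D m i * a i = m * Finsupp.weight w a := by
            rw [wt, Finset.mul_sum, Finset.mul_sum]
            refine Finset.sum_congr rfl fun i _ => ?_
            by_cases hi : D ∣ m * w i
            · rw [← mul_assoc, ← (cl_eq w hD m i).2 hi]; ring
            · rw [hcon i hi]; ring
          rw [h4, mul_comm m D] at h7
          exact (Nat.eq_of_mul_eq_mul_left hD h7).le
        obtain ⟨i, hi, hai⟩ := h6
        rw [aeval_monomial, Finsupp.prod_fintype _ _ (by simp)]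
        rw [Finset.prod_eq_zero (Finset.mem_univ i), mul_zero]
        rw [z0, if_neg (by simp [hi]), zero_pow hai]
      · rfl

/-- (W2) -/
theorem t_W2 : Bas → S_W0 → S_W2 := by
  intro hB _ K _ R _ M v hv σ _ G w D hw hD hG
  classical
  refine ⟨fun I => v ^ (Finset.univ.filter fun i => i ∉ I).card *
    M.χ σ {y : Pt K σ | aeval (z0 I y) (weightedHomogeneousComponent w D G) ≠ 0}, fun m hm => ?_⟩
  set I : Finset σ := Finset.univ.filter fun i => D ∣ m * w i with hI
  have hS : Constr {y : Pt K σ | aeval (z0 I y) (weightedHomogeneousComponent w D G) ≠ 0} :=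
    Constr.ne (z0_pf I _) IsPF.zero
  obtain ⟨hA, hvol⟩ := hB.cc.2 _ hS
  have hset : {x ∈ (Sf w D 1 m : Set (Ac K σ)) | Od (aeval x G) m} =
      {x : Ac K σ | ∃ y ∈ {x : Ac K σ | (fun i => PowerSeries.coeff 0 (x i)) ∈
        {y : Pt K σ | aeval (z0 I y) (weightedHomogeneousComponent w D G) ≠ 0}},
        ∀ i, x i = PowerSeries.X ^ cl w D m i * y i} := by
    ext x
    constructor
    · rintro ⟨h1, h2⟩
      have h3 : ∀ i, ∃ y, x i = PowerSeries.X ^ cl w D m i * y := by
        intro i
        have : PowerSeries.X ^ cl w D m i ∣ x i :=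
          PowerSeries.X_pow_dvd_iff.2 fun j hj => h1 i j ((cl_lt w hD m i j).2 hj)
        exact this
      choose y hy using h3
      refine ⟨y, ?_, hy⟩
      have h4 := (lead G w hD hG hm x y hy).2
      have h5 := h2.2
      rw [h4] at h5
      exact h5
    · rintro ⟨y, hy, h⟩
      have h4 := lead G w hD hG hm x y h
      refine ⟨fun i j hj => ?_, h4.1, ?_⟩
      · rw [h, PowerSeries.coeff_X_pow_mul', if_neg (by have := (cl_lt w hD m i j).1 hj; omega)]
      · rw [h4.2]
        exact hy
  have hsc := (hB.sc M v hv (cl w D m) _ hA).2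
  rw [hset, hsc, hvol M v hv]
  have hc : ∑ i, cl w D m i = ∑ i, m * w i / D + (Finset.univ.filter fun i => i ∉ I).card := by
    unfold cl
    rw [Finset.sum_add_distrib]
    congr 1
    rw [Finset.card_filter]
    refine Finset.sum_congr rfl fun i _ => ?_
    by_cases hi : D ∣ m * w i
    · rw [if_pos hi, if_neg (by simp [hI, hi])]
    · rw [if_neg hi, if_pos (by simp [hI, hi])]
  rw [hc, pow_add, pow_add]
  ring

end

end Pool.Agent.J4H82.YK
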